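import Pool.Agent.Helper24.GammaNeg

/-!
Many odd characters mod `q` with vanishing Euler factor.
-/

set_option autoImplicit false

namespace Pool.Agent.Helper12.LR

open Pool.Agent.Helper24.GammaChar Pool.Agent.Helper24.GammaTr Pool.Agent.Helper24.LRDefs
  Pool.Agent.Helper24.GammaNeg

/-- If `n` has `k + 1` odd prime factors then `2 ^ (k+1) ∣ φ(n)` and `φ(n) / 2 ^ k` is an exponent
of the unit group. -/
lemma exponent_bound (k : ℕ) : ∀ (n : ℕ) (T : Finset ℕ), 0 < n → T.card = k + 1 →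
    (∀ l ∈ T, l.Prime ∧ l ≠ 2 ∧ l ∣ n) →
    2 ^ (k + 1) ∣ n.totient ∧ ∀ a : ℕ, a.Coprime n → a ^ (n.totient / 2 ^ k) ≡ 1 [MOD n] := by
  classical
  induction k with
  | zero =>
    intro n T hn hT hT2
    obtain ⟨l, hl⟩ := Finset.card_eq_one.mp hT
    have h1 := hT2 l (by rw [hl]; exact Finset.mem_singleton_self l)
    have h2 : 2 < n := by
      have h3 : 2 < l := lt_of_le_of_ne h1.1.two_le (Ne.symm h1.2.1)
      exact lt_of_lt_of_le h3 (Nat.le_of_dvd hn h1.2.2)
    refine ⟨by simpa using (Nat.totient_even h2).two_dvd, fun a ha => ?_⟩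
    simpa using Nat.ModEq.pow_totient ha
  | succ k ih =>
    intro n T hn hT hT2
    obtain ⟨l, hl⟩ : T.Nonempty := by rw [← Finset.card_pos]; omega
    obtain ⟨hlp, hl2, hln⟩ := hT2 l hl
    set m := n / l ^ n.factorization l with hm
    set e := n.factorization l with he
    have he0 : 0 < e := hlp.factorization_pos_of_dvd hn.ne' hln
    have hprod : l ^ e * m = n := Nat.ordProj_mul_ordCompl_eq_self n l
    have hm0 : 0 < m := Nat.ordCompl_pos l hn.ne'
    have hcop : l.Coprime m := Nat.coprime_ordCompl hlp hn.ne'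
    have hcop' : (l ^ e).Coprime m := Nat.Coprime.pow_left e hcop
    have h1 := ih m (T.erase l) hm0 (by rw [Finset.card_erase_of_mem hl, hT]; omega) (by
      intro r hr
      rw [Finset.mem_erase] at hr
      obtain ⟨h3, h4, h5⟩ := hT2 r hr.2
      refine ⟨h3, h4, ?_⟩
      rw [← hprod] at h5
      have h6 : r.Coprime (l ^ e) := by
        apply Nat.Coprime.pow_right
        rw [Nat.coprime_primes h3 hlp]
        exact hr.1
      exact h6.dvd_of_dvd_mul_left h5)
    obtain ⟨⟨c, hc⟩, h2⟩ := h1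
    have h3 : 2 < l ^ e := by
      have h4 : 2 < l := lt_of_le_of_ne hlp.two_le (Ne.symm hl2)
      exact lt_of_lt_of_le h4 (Nat.le_self_pow he0.ne' l)
    obtain ⟨d, hd⟩ := (Nat.totient_even h3).two_dvd
    have htot : n.totient = (2 * d) * (2 ^ (k + 1) * c) := by
      rw [← hprod, Nat.totient_mul hcop', hd, hc]
    have hdiv1 : m.totient / 2 ^ k = 2 * c := by
      rw [hc, pow_succ, mul_assoc, Nat.mul_div_cancel_left _ (by positivity)]
    have hdiv2 : n.totient / 2 ^ (k + 1) = 2 * d * c := by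
      rw [htot, show 2 * d * (2 ^ (k + 1) * c) = 2 ^ (k + 1) * (2 * d * c) by ring,
        Nat.mul_div_cancel_left _ (by positivity)]
    refine ⟨⟨d * c, by rw [htot]; ring⟩, fun a ha => ?_⟩
    rw [hdiv2]
    have ha1 : a.Coprime (l ^ e) := Nat.Coprime.coprime_dvd_right ⟨m, hprod.symm⟩ ha
    have ha2 : a.Coprime m := Nat.Coprime.coprime_dvd_right ⟨l ^ e, by rw [mul_comm]; exact hprod.symm⟩ ha
    have h5 : a ^ (2 * d * c) ≡ 1 [MOD (l ^ e)] := by
      have h6 := (Nat.ModEq.pow_totient ha1).pow c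
      rw [hd, one_pow, ← pow_mul] at h6
      exact h6
    have h6 : a ^ (2 * d * c) ≡ 1 [MOD m] := by
      have h7 := (h2 a ha2).pow d
      rw [hdiv1, one_pow, ← pow_mul] at h7
      rw [show 2 * d * c = 2 * c * d by ring]
      exact h7
    rw [← hprod]
    exact (Nat.modEq_and_modEq_iff_modEq_mul hcop').mp ⟨h5, h6⟩

/-- counting homomorphisms which are `-1` at an involution -/
lemma card_neg {Q : Type*} [CommGroup Q] [Finite Q] (z : Q) (hz : z ≠ 1) (hz2 : z * z = 1) :
    2 * Nat.card {φ : Q →* ℂˣ // φ z = -1} = Nat.card Q := by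
  classical
  have hexp0 : Monoid.exponent Q ≠ 0 := Monoid.exponent_ne_zero_of_finite
  have hexp : NeZero ((Monoid.exponent Q : ℕ) : ℂ) := ⟨Nat.cast_ne_zero.mpr hexp0⟩
  have hval : ∀ φ : Q →* ℂˣ, φ z = 1 ∨ φ z = -1 := by
    intro φ
    have h1 : φ z * φ z = 1 := by rw [← map_mul, hz2, map_one]
    have h2 : ((φ z : ℂˣ) : ℂ) * ((φ z : ℂˣ) : ℂ) = 1 := by
      rw [← Units.val_mul, h1, Units.val_one]
    rcases mul_self_eq_one_iff.mp h2 with h3 | h3
    · left; exact Units.ext h3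
    · right; apply Units.ext; rw [h3]; simp
  obtain ⟨φ₀, hφ₀⟩ := CommGroup.exists_apply_ne_one_of_hasEnoughRootsOfUnity Q ℂ hz
  have hφ₁ : φ₀ z = -1 := (hval φ₀).resolve_left hφ₀
  have hcard : Nat.card (Q →* ℂˣ) = Nat.card Q :=
    CommGroup.card_monoidHom_of_hasEnoughRootsOfUnity Q ℂ
  have hne : (1 : ℂˣ) ≠ -1 := by
    intro h
    have := congrArg (fun u : ℂˣ => (u : ℂ)) h
    simp only [Units.val_one, Units.val_neg] at this
    norm_num at this
  have hinv : (φ₀⁻¹ : Q →* ℂˣ) z = -1 := by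
    rw [MonoidHom.inv_apply, hφ₁]; simp
  have e1 : {φ : Q →* ℂˣ // φ z = -1} ≃ {φ : Q →* ℂˣ // ¬ φ z = -1} :=
    { toFun := fun φ => ⟨φ.1 * φ₀, by
        rw [MonoidHom.mul_apply, φ.2, hφ₁, neg_mul_neg, one_mul]; exact hne⟩
      invFun := fun φ => ⟨φ.1 * φ₀⁻¹, by
        rw [MonoidHom.mul_apply, (hval φ.1).resolve_right φ.2, hinv, one_mul]⟩
      left_inv := fun φ => Subtype.ext (MonoidHom.ext fun x => by
        simp [MonoidHom.mul_apply, MonoidHom.inv_apply])
      right_inv := fun φ => Subtype.ext (MonoidHom.ext fun x => by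
        simp [MonoidHom.mul_apply, MonoidHom.inv_apply]) }
  have hfin : Finite (Q →* ℂˣ) := by
    apply Nat.finite_of_card_ne_zero
    rw [hcard]
    exact Nat.card_pos.ne'
  have h1 := Nat.card_congr e1
  have h2 : Nat.card {φ : Q →* ℂˣ // φ z = -1} + Nat.card {φ : Q →* ℂˣ // ¬ φ z = -1} =
      Nat.card (Q →* ℂˣ) := by
    rw [← Nat.card_sum]
    exact Nat.card_congr (Equiv.sumCompl _)
  omega


lemma order_bound {k n : ℕ} {T : Finset ℕ} (hn : 0 < n) (hT : T.card = k + 1)
    (hT2 : ∀ l ∈ T, l.Prime ∧ l ≠ 2 ∧ l ∣ n) {p : ℕ} (hcop : p.Coprime n) :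
    2 ^ k ≤ Nat.card ((ZMod n)ˣ ⧸ Subgroup.zpowers (ZMod.unitOfCoprime p hcop)) := by
  classical
  have : NeZero n := ⟨hn.ne'⟩
  obtain ⟨hdvd, hexp⟩ := exponent_bound k n T hn hT hT2
  set u := ZMod.unitOfCoprime p hcop with hu
  have h1 : u ^ (n.totient / 2 ^ k) = 1 := by
    apply Units.ext
    rw [Units.val_pow_eq_pow_val, hu, ZMod.coe_unitOfCoprime, Units.val_one]
    have h2 := hexp p hcop
    rw [← ZMod.natCast_eq_natCast_iff] at h2
    push_cast at h2
    exact h2
  have h2 : 2 ^ k ∣ n.totient := (pow_dvd_pow 2 (Nat.le_succ k)).trans hdvd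
  have h3 : 0 < n.totient := Nat.totient_pos.mpr hn
  have h4 : 0 < n.totient / 2 ^ k := Nat.div_pos (Nat.le_of_dvd h3 h2) (by positivity)
  have h5 : orderOf u ≤ n.totient / 2 ^ k := orderOf_le_of_pow_eq_one h4 h1
  have h6 := Subgroup.card_eq_card_quotient_mul_card_subgroup (Subgroup.zpowers u)
  rw [Nat.card_zpowers, Nat.card_eq_fintype_card, ZMod.card_units_eq_totient] at h6
  have h7 : n.totient / 2 ^ k * 2 ^ k = n.totient := Nat.div_mul_cancel h2
  by_contra hcon
  push Not at hcon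
  set c := Nat.card ((ZMod n)ˣ ⧸ Subgroup.zpowers u)
  have h8 : c * orderOf u ≤ c * (n.totient / 2 ^ k) := Nat.mul_le_mul_left _ h5
  have h9 : c * (n.totient / 2 ^ k) < 2 ^ k * (n.totient / 2 ^ k) :=
    Nat.mul_lt_mul_of_pos_right hcon h4
  have h10 : 2 ^ k * (n.totient / 2 ^ k) = n.totient := by rw [mul_comm]; exact h7
  omega

/-- `p` is not congruent to `-1` to any power modulo a prime `l ≡ -1 mod 8 p` -/
lemma pow_ne_neg_one {p l : ℕ} (hp : p.Prime) (hl : l.Prime) (h : (l : ZMod (8 * p)) = -1) (j : ℕ) :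
    (p : ZMod l) ^ j ≠ -1 := by
  have : Fact p.Prime := ⟨hp⟩
  have : Fact l.Prime := ⟨hl⟩
  have h8 : (l : ZMod 8) = -1 := by
    have := congrArg (ZMod.castHom (Dvd.intro p rfl : 8 ∣ 8 * p) (ZMod 8)) h
    simpa using this
  have hp' : (l : ZMod p) = -1 := by
    have := congrArg (ZMod.castHom (Dvd.intro_left 8 rfl : p ∣ 8 * p) (ZMod p)) h
    simpa using this
  have hl8 : l % 8 = 7 := by
    have h1 : (l : ZMod 8) = ((7 : ℕ) : ZMod 8) := by rw [h8]; decide
    rw [ZMod.natCast_eq_natCast_iff] at h1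
    simpa [Nat.ModEq] using h1
  have hne : l ≠ p := by
    rintro rfl
    have h1 : ((l : ℕ) : ZMod l) = 0 := ZMod.natCast_self l
    rw [h1] at hp'
    have h2 := congrArg (fun x : ZMod l => -x) hp'
    simp at h2
  have hl2 : l ≠ 2 := by rintro rfl; omega
  have hsq : IsSquare (p : ZMod l) := by
    rcases hp.eq_two_or_odd with h2 | hodd
    · subst h2
      have := (ZMod.exists_sq_eq_two_iff (p := l) hl2).mpr (Or.inr hl8)
      exact_mod_cast this
    · have hp2 : p ≠ 2 := by rintro rfl; omega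
      have h4 : p % 4 = 1 ∨ p % 4 = 3 := by omega
      rcases h4 with h4 | h4
      · rw [← ZMod.exists_sq_eq_prime_iff_of_mod_four_eq_one h4 hl2, hp',
          ZMod.exists_sq_eq_neg_one_iff]
        omega
      · rw [ZMod.exists_sq_eq_prime_iff_of_mod_four_eq_three (p := l) (q := p) (by omega) h4 hne,
          hp', ZMod.exists_sq_eq_neg_one_iff]
        omega
  intro hj
  have h1 : IsSquare (-1 : ZMod l) := by rw [← hj]; exact hsq.pow j
  rw [ZMod.exists_sq_eq_neg_one_iff] at h1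
  omega

/-- many bad characters -/
lemma card_bad (k q : ℕ) (hq : 2 < q) {p : ℕ} (hp : p.Prime) (hpq : p ∣ q)
    (T : Finset ℕ) (hT : T.card = k + 2)
    (hT2 : ∀ l ∈ T, l.Prime ∧ (l : ZMod (8 * p)) = -1 ∧ l ∣ q) :
    2 ^ k ≤ Nat.card {χ : DirichletCharacter ℂ q // χ.Odd ∧ χ.primitiveCharacter (p : ℕ) = 1} := by
  classical
  have hq0 : NeZero q := ⟨by omega⟩
  have hfp : Fact p.Prime := ⟨hp⟩
  have hcop : p.Coprime (q / p ^ q.factorization p) := Nat.coprime_ordCompl hp (NeZero.ne q)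
  have hn0 : NeZero (q / p ^ q.factorization p) := ⟨(Nat.ordCompl_pos p (NeZero.ne q)).ne'⟩
  have hdvd : q / p ^ q.factorization p ∣ q := Nat.ordCompl_dvd q p
  have hprod : p ^ q.factorization p * (q / p ^ q.factorization p) = q :=
    Nat.ordProj_mul_ordCompl_eq_self q p
  set n := q / p ^ q.factorization p with hn
  have hT3 : ∀ l ∈ T, l.Prime ∧ l ≠ 2 ∧ l ∣ n := by
    intro l hl
    obtain ⟨h1, h2, h3⟩ := hT2 l hl
    have hne : ∀ j : ℕ, (p : ZMod l) ^ j ≠ -1 := pow_ne_neg_one hp h1 h2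
    have : Fact l.Prime := ⟨h1⟩
    have hlp : l ≠ p := by
      rintro rfl
      have h4 : (l : ZMod l) = -1 := by
        have := congrArg (ZMod.castHom (Dvd.intro_left 8 rfl : l ∣ 8 * l) (ZMod l)) h2
        simpa using this
      exact hne 1 (by rw [pow_one]; exact h4)
    refine ⟨h1, ?_, ?_⟩
    · rintro rfl
      apply hne 0
      rw [pow_zero]
      exact (CharTwo.neg_eq (1 : ZMod 2)).symm
    · rw [← hprod] at h3
      have h6 : l.Coprime (p ^ q.factorization p) := by
        apply Nat.Coprime.pow_right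
        rw [Nat.coprime_primes h1 hp]
        exact hlp
      exact h6.dvd_of_dvd_mul_left h3
  set u : (ZMod n)ˣ := ZMod.unitOfCoprime p hcop with hu
  set H : Subgroup (ZMod n)ˣ := Subgroup.zpowers u with hH
  have hQ : 2 ^ (k + 1) ≤ Nat.card ((ZMod n)ˣ ⧸ H) :=
    order_bound (Nat.pos_of_ne_zero hn0.ne) hT hT3 hcop
  obtain ⟨l, hl⟩ : T.Nonempty := by rw [← Finset.card_pos]; omega
  have hnotin : (-1 : (ZMod n)ˣ) ∉ H := by
    intro hmem
    rw [hH, ← mem_powers_iff_mem_zpowers] at hmem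
    obtain ⟨j, hj⟩ := hmem
    have h1 := congrArg (fun w : (ZMod n)ˣ => (w : ZMod n)) hj
    simp only [Units.val_pow_eq_pow_val, hu, ZMod.coe_unitOfCoprime, Units.val_neg,
      Units.val_one] at h1
    have h2 := congrArg (ZMod.castHom (hT3 l hl).2.2 (ZMod l)) h1
    simp only [map_pow, map_natCast, map_neg, map_one] at h2
    exact pow_ne_neg_one hp (hT2 l hl).1 (hT2 l hl).2.1 j h2
  have hne : (QuotientGroup.mk (-1 : (ZMod n)ˣ) : (ZMod n)ˣ ⧸ H) ≠ 1 := fun h =>
    hnotin ((QuotientGroup.eq_one_iff _).mp h)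
  have hz2 : (QuotientGroup.mk (-1 : (ZMod n)ˣ) : (ZMod n)ˣ ⧸ H) * QuotientGroup.mk (-1) = 1 := by
    rw [← QuotientGroup.mk_mul, neg_mul_neg, one_mul, QuotientGroup.mk_one]
  have hcn := card_neg _ hne hz2
  set X := {φ : ((ZMod n)ˣ ⧸ H) →* ℂˣ // φ (QuotientGroup.mk (-1)) = -1} with hX
  have hcX : 2 ^ k ≤ Nat.card X := by
    rw [pow_succ] at hQ
    omega
  refine hcX.trans ?_
  have hval : ∀ (φ : ((ZMod n)ˣ ⧸ H) →* ℂˣ) (w : (ZMod n)ˣ),
      (MulChar.ofUnitHom (φ.comp (QuotientGroup.mk' H)) : DirichletCharacter ℂ n) (w : ZMod n) =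
      ((φ (QuotientGroup.mk w) : ℂˣ) : ℂ) := by
    intro φ w
    rw [MulChar.ofUnitHom_coe]
    rfl
  let f : X → {χ : DirichletCharacter ℂ q // χ.Odd ∧ χ.primitiveCharacter (p : ℕ) = 1} :=
    fun φ => ⟨DirichletCharacter.changeLevel hdvd
      (MulChar.ofUnitHom (φ.1.comp (QuotientGroup.mk' H))), by
        constructor
        · change (DirichletCharacter.changeLevel hdvd _) (-1) = -1
          have h1 := DirichletCharacter.changeLevel_eq_cast_of_dvd'
            (MulChar.ofUnitHom (φ.1.comp (QuotientGroup.mk' H))) hdvd (a := -1)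
            (isCoprime_one_left.neg_left)
          push_cast at h1
          rw [h1]
          have h2 := hval φ.1 (-1)
          rw [Units.val_neg, Units.val_one] at h2
          rw [h2, φ.2]
          simp
        · rw [← DirichletCharacter.mem_subgroupOfPrimitiveMapToOne_iff]
          unfold DirichletCharacter.subgroupOfPrimitiveMapToOne
          refine ⟨_, ?_, rfl⟩
          rw [SetLike.mem_coe, DirichletCharacter.mem_annihilator_iff]
          intro a ha
          rw [Set.mem_singleton_iff] at ha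
          rw [ha]
          have h2 := hval φ.1 u
          rw [hu] at h2
          rw [h2]
          have h3 : (QuotientGroup.mk (ZMod.unitOfCoprime p hcop) : (ZMod n)ˣ ⧸ H) = 1 := by
            rw [QuotientGroup.eq_one_iff, hH]
            exact Subgroup.mem_zpowers _
          rw [h3, map_one, Units.val_one]⟩
  apply Nat.card_le_card_of_injective f
  intro φ₁ φ₂ h
  apply Subtype.ext
  have h1 : DirichletCharacter.changeLevel hdvd
      (MulChar.ofUnitHom (φ₁.1.comp (QuotientGroup.mk' H))) =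
      DirichletCharacter.changeLevel hdvd
      (MulChar.ofUnitHom (φ₂.1.comp (QuotientGroup.mk' H))) := congrArg Subtype.val h
  have h2 := DirichletCharacter.changeLevel_injective hdvd h1
  refine MonoidHom.ext fun x => ?_
  obtain ⟨w, rfl⟩ := QuotientGroup.mk_surjective x
  apply Units.ext
  rw [← hval, ← hval, h2]

lemma card_good_add (k q : ℕ) (hq : 2 < q) {p : ℕ} (hp : p.Prime) (hpq : p ∣ q)
    (T : Finset ℕ) (hT : T.card = k + 2)
    (hT2 : ∀ l ∈ T, l.Prime ∧ (l : ZMod (8 * p)) = -1 ∧ l ∣ q) :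
    Nat.card {χ : DirichletCharacter ℂ q // Good q χ} + 2 ^ k ≤ q.totient / 2 := by
  classical
  have hq0 : NeZero q := ⟨by omega⟩
  have h1 := card_odd q hq
  have h2 := card_bad k q hq hp hpq T hT hT2
  rw [Nat.card_eq_fintype_card, Fintype.card_subtype] at h1 h2 ⊢
  have h3 : Disjoint (Finset.univ.filter (fun χ : DirichletCharacter ℂ q => Good q χ))
      (Finset.univ.filter (fun χ : DirichletCharacter ℂ q =>
        χ.Odd ∧ χ.primitiveCharacter (p : ℕ) = 1)) := by
    rw [Finset.disjoint_left]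
    intro χ hg hb
    rw [Finset.mem_filter] at hg hb
    exact hg.2.2 p hp hpq hb.2.2
  have h4 : (Finset.univ.filter (fun χ : DirichletCharacter ℂ q => Good q χ)) ∪
      (Finset.univ.filter (fun χ : DirichletCharacter ℂ q =>
        χ.Odd ∧ χ.primitiveCharacter (p : ℕ) = 1)) ⊆
      (Finset.univ.filter (fun χ : DirichletCharacter ℂ q => χ.Odd)) := by
    intro χ hχ
    rw [Finset.mem_union, Finset.mem_filter, Finset.mem_filter] at hχ
    rw [Finset.mem_filter]
    rcases hχ with h | h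
    · exact ⟨h.1, h.2.1⟩
    · exact ⟨h.1, h.2.1⟩
  have h5 := Finset.card_le_card h4
  rw [Finset.card_union_of_disjoint h3] at h5
  omega

/-- the transcendence degree bound at a level with many prime factors `≡ -1 mod 8 p` -/
theorem trdeg_add_le (K q : ℕ) (hq : 2 < q) {p : ℕ} (hp : p.Prime) (hpq : p ∣ q)
    (T : Finset ℕ) (hT : T.card = K + 2)
    (hT2 : ∀ l ∈ T, l.Prime ∧ (l : ZMod (8 * p)) = -1 ∧ l ∣ q) :
    Algebra.trdeg ℚ (F q) + (K : Cardinal) ≤ ((1 + q.totient / 2 : ℕ) : Cardinal) := by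
  have h1 := trdeg_F_le q hq
  have h2 := card_good_add K q hq hp hpq T hT hT2
  have h3 : K ≤ 2 ^ K := (Nat.lt_two_pow_self).le
  calc Algebra.trdeg ℚ (F q) + (K : Cardinal)
      ≤ ((1 + Nat.card {χ : DirichletCharacter ℂ q // Good q χ} : ℕ) : Cardinal) +
          ((2 ^ K : ℕ) : Cardinal) := by
        refine add_le_add h1 ?_
        exact_mod_cast h3
    _ = ((1 + Nat.card {χ : DirichletCharacter ℂ q // Good q χ} + 2 ^ K : ℕ) : Cardinal) := by
        push_cast; rfl
    _ ≤ _ := by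
        rw [Nat.cast_le]
        omega

end Pool.Agent.Helper12.LR
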