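import Pool.Agent.Helper84.TN.Main
import Pool.Agent.Helper82.CF.ParA

/-!
Corollaries of the theorem on functions of low rank along a tree: sets of numbers and graphs of
choice inside a set with small representation function.
-/

namespace Pool.Agent.Helper12.LR

open Pool.Agent.Helper84.TN Pool.Agent.Helper82.CF
open Pool.Agent.Helper29.CC (rep_mono)
open scoped Pointwise

/-! ### Cubes inside `A` and `A × A` -/

lemma rep_cut {A : Set ℕ} {x g : ℕ} (hg0 : 0 < g) (hg : ∀ m ≤ 2 * x, rep A m < g) (n : ℕ) :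
    rep {a | a ∈ A ∧ a ≤ x} n < g := by
  rcases Nat.lt_or_ge (2 * x) n with h | h
  · have h0 : rep {a | a ∈ A ∧ a ≤ x} n = 0 := by
      unfold rep
      rw [Set.ncard_eq_zero (rep_finite _ n)]
      ext p
      simp only [Set.mem_ofPred_eq, Set.mem_empty_iff_false, iff_false]
      rintro ⟨⟨-, h1⟩, ⟨-, h2⟩, h3⟩
      omega
    rw [h0]
    exact hg0
  · exact (rep_mono (fun a ha => ha.1) n).trans_lt (hg n h)

lemma no_cube {A : Set ℕ} {x k : ℕ} (hg : ∀ m ≤ 2 * x, rep A m < 2 ^ (k + 1)) (c : ℤ)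
    (l : List ℤ) (hl : l.length = k + 1) (hc : (cube l).card = 2 ^ l.length) :
    ¬ ∀ z ∈ {c} + cube l, ∃ a ∈ A, a ≤ x ∧ (a : ℤ) = z := by
  intro h
  obtain ⟨n, hn⟩ := cube_rep (A := {a | a ∈ A ∧ a ≤ x}) (c := c) (l := l) (fun z hz => by
    obtain ⟨a, ha, hax, haz⟩ := h z hz
    exact ⟨a, ⟨ha, hax⟩, haz⟩)
  have h2 := rep_cut (by positivity) hg n
  rw [hc, hl] at hn
  omega

lemma no_cube_pairs {A : Set ℕ} {x k : ℕ} (hg : ∀ m ≤ 2 * x, rep A m ^ 2 < 2 ^ (k + 1))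
    (c : ℤ × ℤ) (l : List (ℤ × ℤ)) (hl : l.length = k + 1) (hc : (cube l).card = 2 ^ l.length) :
    ¬ ∀ z ∈ {c} + cube l, ∃ a ∈ A, ∃ b ∈ A, a ≤ x ∧ b ≤ x ∧ z = ((a : ℤ), (b : ℤ)) := by
  intro h
  set A' : Set ℕ := {a | a ∈ A ∧ a ≤ x} with hA'
  set P : Finset (ℤ × ℤ) := {c} + cube l with hP
  have hPn : P.Nonempty := (Finset.singleton_nonempty _).add (cube_nonempty l)
  have hsym : ∀ z ∈ P, 2 • c + l.sum - z ∈ P := by
    intro a ha
    rw [hP, Finset.mem_add] at ha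
    obtain ⟨y, hy, z, hz, rfl⟩ := ha
    rw [Finset.mem_singleton] at hy
    subst hy
    rw [hP, Finset.mem_add]
    exact ⟨y, Finset.mem_singleton_self _, l.sum - z, cube_symm l z hz, by
      rw [two_smul]
      abel⟩
  have h1 : (P.image Prod.fst).card ≤ rep A' (2 • c + l.sum).1.toNat := by
    refine card_le_rep ?_ ?_ (hPn.image _)
    · intro z hz
      obtain ⟨w, hw, rfl⟩ := Finset.mem_image.1 hz
      obtain ⟨a, ha, b, hb, hax, hbx, rfl⟩ := h w hw
      exact ⟨a, ⟨ha, hax⟩, rfl⟩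
    · intro z hz
      obtain ⟨w, hw, rfl⟩ := Finset.mem_image.1 hz
      exact Finset.mem_image.2 ⟨_, hsym w hw, rfl⟩
  have h2 : (P.image Prod.snd).card ≤ rep A' (2 • c + l.sum).2.toNat := by
    refine card_le_rep ?_ ?_ (hPn.image _)
    · intro z hz
      obtain ⟨w, hw, rfl⟩ := Finset.mem_image.1 hz
      obtain ⟨a, ha, b, hb, hax, hbx, rfl⟩ := h w hw
      exact ⟨b, ⟨hb, hbx⟩, rfl⟩
    · intro z hz
      obtain ⟨w, hw, rfl⟩ := Finset.mem_image.1 hz
      exact Finset.mem_image.2 ⟨_, hsym w hw, rfl⟩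
  have h3 : P.card ≤ (P.image Prod.fst).card * (P.image Prod.snd).card := by
    rw [← Finset.card_product]
    refine Finset.card_le_card fun z hz => ?_
    rw [Finset.mem_product]
    exact ⟨Finset.mem_image_of_mem _ hz, Finset.mem_image_of_mem _ hz⟩
  have h4 : P.card = 2 ^ (k + 1) := by rw [hP, card_singleton_add, hc, hl]
  have hsq : ∀ n, rep A' n ^ 2 < 2 ^ (k + 1) := by
    intro n
    rcases Nat.lt_or_ge (2 * x) n with hn | hn
    · have h0 : rep A' n < 1 := by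
        have h5 := rep_cut (A := A') (x := x) (g := 1) Nat.one_pos
        by_contra hcon
        have h6 : 0 < rep A' n := by omega
        unfold rep at h6
        rw [Set.ncard_pos (rep_finite _ n)] at h6
        obtain ⟨p, ⟨-, q1⟩, ⟨-, q2⟩, q3⟩ := h6
        omega
      have h7 : rep A' n = 0 := by omega
      rw [h7]
      positivity
    · exact (Nat.pow_le_pow_left (rep_mono (fun a ha => ha.1) n) 2).trans_lt (hg n hn)
  have h5 := hsq (2 • c + l.sum).1.toNat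
  have h6 := hsq (2 • c + l.sum).2.toNat
  have h7 : 2 ^ (k + 1) ≤ rep A' (2 • c + l.sum).1.toNat * rep A' (2 • c + l.sum).2.toNat := by
    rw [← h4]
    exact h3.trans (Nat.mul_le_mul h1 h2)
  have h8 := Nat.mul_lt_mul'' h5 h6
  have h9 := Nat.mul_le_mul h7 h7
  have h10 : rep A' (2 • c + l.sum).1.toNat * rep A' (2 • c + l.sum).2.toNat *
      (rep A' (2 • c + l.sum).1.toNat * rep A' (2 • c + l.sum).2.toNat) =
      rep A' (2 • c + l.sum).1.toNat ^ 2 * rep A' (2 • c + l.sum).2.toNat ^ 2 := by ring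
  rw [h10] at h9
  omega

/-! ### The theorem for supports -/

section Gen

variable {ι β F G : Type*} [DecidableEq ι] [Fintype ι] [Fintype β] [DecidableEq β] [Field F]
  [AddCommGroup G] [DecidableEq G]

theorem gen (e : ι → β → G) (hinj : Function.Injective fun w : ι → β => ∑ i, e i (w i))
    (T : Pool.Agent.Helper84.TN.Tree ι) (hT : T.Proper) (hu : T.set = Finset.univ) (f : (ι → β) → F) (s k : ℕ)
    (hs : 1 ≤ s) (hr : ∀ D ∈ T.blocks, rk f D ≤ s)
    (hno : ∀ (c : G) (l : List G), l.length = k + 1 → (cube l).card = 2 ^ l.length →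
      ¬ ∀ z ∈ {c} + cube l, ∃ w, f w ≠ 0 ∧ ∑ i, e i (w i) = z) :
    ({w : ι → β | f w ≠ 0} : Set (ι → β)).ncard ≤
      (Fintype.card ι * (Fintype.card β + 1)) ^ k * s ^ (3 * (2 ^ k - 1)) := by
  classical
  set S : Finset G := (Finset.univ.filter fun w : ι → β => f w ≠ 0).image
    fun w => ∑ i, e i (w i) with hS
  have hmem : ∀ g, g ∈ S ↔ ∃ w, f w ≠ 0 ∧ ∑ i, e i (w i) = g := by
    intro g
    rw [hS, Finset.mem_image]
    constructor
    · rintro ⟨w, hw, e⟩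
      exact ⟨w, (Finset.mem_filter.1 hw).2, e⟩
    · rintro ⟨w, hw, e⟩
      exact ⟨w, Finset.mem_filter.2 ⟨Finset.mem_univ _, hw⟩, e⟩
  have hcard : S.card = ({w : ι → β | f w ≠ 0} : Set (ι → β)).ncard := by
    rw [hS, Finset.card_image_of_injective _ hinj, ← Set.ncard_coe_finset]
    congr 1
    ext w
    simp
  rw [← hcard]
  refine low_rank e hinj T hT hu f S ?_ ?_ s k hs hr ?_
  · intro w
    rw [hmem]
    constructor
    · exact fun h => ⟨w, h, rfl⟩
    · rintro ⟨w', h, h'⟩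
      rw [← hinj h']
      exact h
  · intro g hg
    obtain ⟨w, -, h⟩ := (hmem g).1 hg
    exact ⟨w, h⟩
  · intro c l hl hc hsub
    exact hno c l hl hc fun z hz => (hmem z).1 (hsub hz)

/-- sets of numbers -/
theorem gen_one (e : ι → β → ℤ) (hinj : Function.Injective fun w : ι → β => ∑ i, e i (w i))
    (T : Pool.Agent.Helper84.TN.Tree ι) (hT : T.Proper) (hu : T.set = Finset.univ) (f : (ι → β) → F) (s k : ℕ)
    (hs : 1 ≤ s) (hr : ∀ D ∈ T.blocks, rk f D ≤ s) {A : Set ℕ} {x : ℕ}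
    (hA : ∀ w, f w ≠ 0 → ∃ a ∈ A, a ≤ x ∧ (a : ℤ) = ∑ i, e i (w i))
    (hg : ∀ m ≤ 2 * x, rep A m < 2 ^ (k + 1)) :
    ({w : ι → β | f w ≠ 0} : Set (ι → β)).ncard ≤
      (Fintype.card ι * (Fintype.card β + 1)) ^ k * s ^ (3 * (2 ^ k - 1)) := by
  refine gen e hinj T hT hu f s k hs hr fun c l hl hc hz => ?_
  refine no_cube hg c l hl hc fun z hz' => ?_
  obtain ⟨w, hw, rfl⟩ := hz z hz'
  exact hA w hw

/-- sets of pairs -/
theorem gen_two (e : ι → β → ℤ × ℤ)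
    (hinj : Function.Injective fun w : ι → β => ∑ i, e i (w i))
    (T : Pool.Agent.Helper84.TN.Tree ι) (hT : T.Proper) (hu : T.set = Finset.univ) (f : (ι → β) → F) (s k : ℕ)
    (hs : 1 ≤ s) (hr : ∀ D ∈ T.blocks, rk f D ≤ s) {A : Set ℕ} {x : ℕ}
    (hA : ∀ w, f w ≠ 0 → ∃ a ∈ A, ∃ b ∈ A, a ≤ x ∧ b ≤ x ∧
      ∑ i, e i (w i) = ((a : ℤ), (b : ℤ)))
    (hg : ∀ m ≤ 2 * x, rep A m ^ 2 < 2 ^ (k + 1)) :
    ({w : ι → β | f w ≠ 0} : Set (ι → β)).ncard ≤
      (Fintype.card ι * (Fintype.card β + 1)) ^ k * s ^ (3 * (2 ^ k - 1)) := by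
  refine gen e hinj T hT hu f s k hs hr fun c l hl hc hz => ?_
  refine no_cube_pairs hg c l hl hc fun z hz' => ?_
  obtain ⟨w, hw, rfl⟩ := hz z hz'
  exact hA w hw

end Gen

/-! ### Rates -/

lemma log_aux {N q s k r : ℕ} (hq : 2 ≤ q) (hs : 1 ≤ s) (hr : 2 ^ k ≤ r)
    (hN : N ≤ q ^ k * s ^ (3 * (2 ^ k - 1))) :
    Real.log N / (3 * Real.log (q * s)) ≤ r := by
  have hq0 : (0 : ℝ) < q := by
    have : 0 < q := by omega
    exact_mod_cast this
  have hs0 : (0 : ℝ) < s := by exact_mod_cast hs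
  have hqs : (1 : ℝ) < q * s := by
    have h1 : 2 * 1 ≤ q * s := Nat.mul_le_mul hq hs
    have h2 : (1 : ℕ) < q * s := by omega
    exact_mod_cast h2
  have hlog : 0 < Real.log (q * s) := Real.log_pos hqs
  rw [div_le_iff₀ (by positivity)]
  rcases Nat.eq_zero_or_pos N with h0 | h0
  · rw [h0, Nat.cast_zero, Real.log_zero]
    positivity
  have h1 : N ≤ (q * s) ^ (3 * r) := by
    refine hN.trans ?_
    have e1 : q ^ k ≤ q ^ (3 * r) := by
      refine Nat.pow_le_pow_right (by omega) ?_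
      have := Nat.lt_two_pow_self (n := k)
      omega
    have e2 : s ^ (3 * (2 ^ k - 1)) ≤ s ^ (3 * r) := Nat.pow_le_pow_right hs (by omega)
    rw [mul_pow]
    exact Nat.mul_le_mul e1 e2
  have h2 : (N : ℝ) ≤ ((q : ℝ) * s) ^ (3 * r) := by exact_mod_cast h1
  have h3 : Real.log N ≤ Real.log (((q : ℝ) * s) ^ (3 * r)) :=
    Real.log_le_log (by exact_mod_cast h0) h2
  rw [Real.log_pow] at h3
  push_cast at h3
  linarith

section Rate

variable {ι β F : Type*} [DecidableEq ι] [Fintype ι] [Fintype β] [DecidableEq β] [Field F]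

lemma two_le_size {f : (ι → β) → F} {T : Pool.Agent.Helper84.TN.Tree ι} {w : ι → β} :
    2 ≤ Fintype.card ι * (Fintype.card β + 1) := by
  have i : ι := by
    induction T with
    | leaf i => exact i
    | node l r h1 h2 => exact h1
  have h1 : 1 ≤ Fintype.card ι := Fintype.card_pos_iff.2 ⟨i⟩
  have h2 : 1 ≤ Fintype.card β := Fintype.card_pos_iff.2 ⟨w i⟩
  nlinarith

/-- a power of two of the size of the maximal value -/
lemma exists_scale {x : ℕ} (g : ℕ → ℕ) (h : ∃ m ≤ 2 * x, 1 ≤ g m) :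
    ∃ k, ∃ m ≤ 2 * x, 2 ^ k ≤ g m ∧ ∀ m' ≤ 2 * x, g m' < 2 ^ (k + 1) := by
  obtain ⟨m, hm, hmax⟩ := Finset.exists_max_image (Finset.range (2 * x + 1)) g
    ⟨0, Finset.mem_range.2 (by omega)⟩
  obtain ⟨m₀, hm₀, h1⟩ := h
  have h2 := hmax m₀ (Finset.mem_range.2 (by omega))
  refine ⟨Nat.log 2 (g m), m, by rw [Finset.mem_range] at hm; omega,
    Nat.pow_log_le_self 2 (by omega), fun m' hm' => ?_⟩
  exact (hmax m' (Finset.mem_range.2 (by omega))).trans_lt
    (Nat.lt_pow_succ_log_self (by norm_num) _)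

lemma rep_double {A : Set ℕ} {a : ℕ} (ha : a ∈ A) : 1 ≤ rep A (2 * a) := by
  unfold rep
  rw [Nat.one_le_iff_ne_zero, ← Nat.pos_iff_ne_zero, Set.ncard_pos (rep_finite _ _)]
  exact ⟨(a, a), ha, ha, by simp; omega⟩

theorem rate_one (e : ι → β → ℤ) (hinj : Function.Injective fun w : ι → β => ∑ i, e i (w i))
    (T : Pool.Agent.Helper84.TN.Tree ι) (hT : T.Proper) (hu : T.set = Finset.univ) (f : (ι → β) → F) (s : ℕ)
    (hs : 1 ≤ s) (hr : ∀ D ∈ T.blocks, rk f D ≤ s) {A : Set ℕ} {x : ℕ}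
    (hA : ∀ w, f w ≠ 0 → ∃ a ∈ A, a ≤ x ∧ (a : ℤ) = ∑ i, e i (w i)) :
    ∃ m ≤ 2 * x, Real.log (({w : ι → β | f w ≠ 0} : Set (ι → β)).ncard) /
      (3 * Real.log ((Fintype.card ι * (Fintype.card β + 1) : ℕ) * s)) ≤ rep A m := by
  by_cases h0 : ∃ w, f w ≠ 0
  · obtain ⟨w₀, hw₀⟩ := h0
    obtain ⟨a₀, ha₀, hax, -⟩ := hA w₀ hw₀
    obtain ⟨k, m, hm, h1, h2⟩ := exists_scale (x := x) (rep A) ⟨2 * a₀, by omega, rep_double ha₀⟩
    exact ⟨m, hm, log_aux (two_le_size (f := f) (T := T) (w := w₀)) hs h1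
      (gen_one e hinj T hT hu f s k hs hr hA h2)⟩
  · refine ⟨0, by omega, ?_⟩
    have h1 : ({w : ι → β | f w ≠ 0} : Set (ι → β)) = ∅ := by
      ext w
      simp only [Set.mem_ofPred_eq, Set.mem_empty_iff_false, iff_false]
      exact fun h => h0 ⟨w, h⟩
    rw [h1, Set.ncard_empty, Nat.cast_zero, Real.log_zero, zero_div]
    positivity

theorem rate_two (e : ι → β → ℤ × ℤ)
    (hinj : Function.Injective fun w : ι → β => ∑ i, e i (w i))
    (T : Pool.Agent.Helper84.TN.Tree ι) (hT : T.Proper) (hu : T.set = Finset.univ) (f : (ι → β) → F) (s : ℕ)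
    (hs : 1 ≤ s) (hr : ∀ D ∈ T.blocks, rk f D ≤ s) {A : Set ℕ} {x : ℕ}
    (hA : ∀ w, f w ≠ 0 → ∃ a ∈ A, ∃ b ∈ A, a ≤ x ∧ b ≤ x ∧
      ∑ i, e i (w i) = ((a : ℤ), (b : ℤ))) :
    ∃ m ≤ 2 * x, Real.log (({w : ι → β | f w ≠ 0} : Set (ι → β)).ncard) /
      (3 * Real.log ((Fintype.card ι * (Fintype.card β + 1) : ℕ) * s)) ≤ (rep A m : ℝ) ^ 2 := by
  by_cases h0 : ∃ w, f w ≠ 0
  · obtain ⟨w₀, hw₀⟩ := h0
    obtain ⟨a₀, ha₀, b₀, hb₀, hax, hbx, -⟩ := hA w₀ hw₀
    obtain ⟨k, m, hm, h1, h2⟩ := exists_scale (x := x) (fun m => rep A m ^ 2)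
      ⟨2 * a₀, by omega, Nat.one_le_pow _ _ (rep_double ha₀)⟩
    refine ⟨m, hm, ?_⟩
    have h3 := log_aux (two_le_size (f := f) (T := T) (w := w₀)) hs h1
      (gen_two e hinj T hT hu f s k hs hr hA h2)
    push_cast at h3 ⊢
    exact h3
  · refine ⟨0, by omega, ?_⟩
    have h1 : ({w : ι → β | f w ≠ 0} : Set (ι → β)) = ∅ := by
      ext w
      simp only [Set.mem_ofPred_eq, Set.mem_empty_iff_false, iff_false]
      exact fun h => h0 ⟨w, h⟩
    rw [h1, Set.ncard_empty, Nat.cast_zero, Real.log_zero, zero_div]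
    positivity

end Rate

/-! ### Digits -/

section Digits

variable {F : Type*} [Field F] {n b : ℕ}

/-- the number with the digits `w i` in base `b` -/
def num (w : Fin n → Fin b) : ℕ := ∑ i, (w i : ℕ) * b ^ (i : ℕ)

lemma num_injective : Function.Injective (num : (Fin n → Fin b) → ℕ) := by
  intro w w' h
  apply finFunctionFinEquiv.injective
  apply Fin.ext
  rw [finFunctionFinEquiv_apply, finFunctionFinEquiv_apply]
  exact h

lemma num_lt (w : Fin n → Fin b) : num w < b ^ n := by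
  have h := (finFunctionFinEquiv w).2
  rw [finFunctionFinEquiv_apply] at h
  exact h

lemma num_surj {m : ℕ} (h : m < b ^ n) : ∃ w : Fin n → Fin b, num w = m := by
  refine ⟨finFunctionFinEquiv.symm ⟨m, h⟩, ?_⟩
  have h1 := finFunctionFinEquiv_apply (finFunctionFinEquiv.symm (⟨m, h⟩ : Fin (b ^ n)))
  rw [Equiv.apply_symm_apply] at h1
  exact h1.symm

end Digits

end Pool.Agent.Helper12.LR
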