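import Pool.Agent.Helper84.TN.Supp
import Pool.Agent.Helper12.LR.Cor

/-!
Choices of representations whose graph has small support rank along a tree: the exact form.
-/

namespace Pool.Agent.Helper12.LR

open Pool.Agent.Helper84.TN Pool.Agent.Helper82.CF
open scoped Pointwise

/-- the digits of the sum at `inl`, those of the first summand at `inr` -/
def chi (n b : ℕ) : Fin n ⊕ Fin n → Fin b → ℤ × ℤ
  | .inl i, d => (0, (d : ℕ) * (b : ℤ) ^ (i : ℕ))
  | .inr i, d => ((d : ℕ) * (b : ℤ) ^ (i : ℕ), -((d : ℕ) * (b : ℤ) ^ (i : ℕ)))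

lemma sum_chi {n b : ℕ} (w : Fin n ⊕ Fin n → Fin b) :
    ∑ i, chi n b i (w i) = (((value fun i => w (.inr i) : ℕ) : ℤ),
      ((value fun i => w (.inl i) : ℕ) : ℤ) - ((value fun i => w (.inr i) : ℕ) : ℤ)) := by
  rw [Fintype.sum_sum_type]
  unfold value chi
  simp only
  refine Prod.ext ?_ ?_
  · rw [Prod.fst_add, Prod.fst_sum, Prod.fst_sum]
    simp
  · rw [Prod.snd_add, Prod.snd_sum, Prod.snd_sum]
    simp only [Finset.sum_neg_distrib]
    push_cast
    ring

lemma chi_injective {n b : ℕ} :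
    Function.Injective fun w : Fin n ⊕ Fin n → Fin b => ∑ i, chi n b i (w i) := by
  intro w w' h
  simp only [sum_chi, Prod.mk.injEq] at h
  obtain ⟨h1, h2⟩ := h
  have h3 : (value fun i => w (.inr i)) = value fun i => w' (.inr i) := by exact_mod_cast h1
  have h4 : (value fun i => w (.inl i)) = value fun i => w' (.inl i) := by
    rw [h1] at h2
    have h5 := sub_left_injective h2
    exact_mod_cast h5
  have h5 := value_injective h3
  have h6 := value_injective h4
  funext i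
  rcases i with i | i
  · exact congrFun h6 i
  · exact congrFun h5 i

/-- **Choices.** The words of `S` give the digits of `m` and of `a`, where `m = a + a'` with `a`
and `a'` in `A`. -/
theorem choice_bound {A : Set ℕ} {n b x s k : ℕ} (T : Pool.Agent.Helper84.TN.Tree (Fin n ⊕ Fin n))
    (hT : T.Proper) (huniv : T.set = Finset.univ) (S : Finset (Fin n ⊕ Fin n → Fin b))
    (hs : 1 ≤ s) (hr : ∀ D ∈ T.blocks, SuppRank S D s)
    (hA : ∀ w ∈ S, ∃ a ∈ A, ∃ a' ∈ A, a ≤ x ∧ a' ≤ x ∧ a + a' = (value fun i => w (.inl i)) ∧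
      a = value fun i => w (.inr i))
    (hg : ∀ m ≤ 2 * x, rep A m ^ 2 < 2 ^ (k + 1)) :
    S.card ≤ (2 * n * (b + 1)) ^ k * s ^ (3 * (2 ^ k - 1)) := by
  classical
  have h1 := suppRank_bound (chi n b) chi_injective T hT huniv S s k hs hr ?_
  · rw [Fintype.card_sum, Fintype.card_fin, Fintype.card_fin] at h1
    rwa [two_mul]
  · intro c l hl hc hsub
    refine no_cube_pairs hg c l hl hc fun z hz => ?_
    obtain ⟨w, hw, rfl⟩ := Finset.mem_image.1 (hsub hz)
    obtain ⟨a, ha, a', ha', hax, hax', h2, h3⟩ := hA w hw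
    refine ⟨a, ha, a', ha', hax, hax', ?_⟩
    rw [sum_chi, ← h2, ← h3]
    push_cast
    rw [add_sub_cancel_left]

/-- the rate -/
theorem choice_rate {A : Set ℕ} {n b x s : ℕ} (T : Pool.Agent.Helper84.TN.Tree (Fin n ⊕ Fin n))
    (hT : T.Proper) (huniv : T.set = Finset.univ) (S : Finset (Fin n ⊕ Fin n → Fin b))
    (hs : 1 ≤ s) (hr : ∀ D ∈ T.blocks, SuppRank S D s)
    (hA : ∀ w ∈ S, ∃ a ∈ A, ∃ a' ∈ A, a ≤ x ∧ a' ≤ x ∧ a + a' = (value fun i => w (.inl i)) ∧
      a = value fun i => w (.inr i)) :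
    ∃ m ≤ 2 * x, Real.log S.card / (3 * Real.log (2 * n * (b + 1) * s)) ≤
      (rep A m : ℝ) ^ 2 := by
  rcases S.eq_empty_or_nonempty with he | ⟨w₀, hw₀⟩
  · refine ⟨0, by omega, ?_⟩
    rw [he, Finset.card_empty, Nat.cast_zero, Real.log_zero, zero_div]
    positivity
  · obtain ⟨a₀, ha₀, a₁, ha₁, hax, hbx, -, -⟩ := hA w₀ hw₀
    obtain ⟨k, m, hm, h1, h2⟩ := exists_scale (x := x) (fun m => rep A m ^ 2)
      ⟨2 * a₀, by omega, Nat.one_le_pow _ _ (rep_double ha₀)⟩
    refine ⟨m, hm, ?_⟩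
    have hq : 2 ≤ 2 * n * (b + 1) := by
      have h3 := two_le_size (F := ℚ) (f := fun _ => 0) (T := T) (w := w₀)
      rw [Fintype.card_sum, Fintype.card_fin, Fintype.card_fin] at h3
      rwa [two_mul]
    have h3 := log_aux hq hs h1 (choice_bound T hT huniv S hs hr hA h2)
    push_cast at h3 ⊢
    exact h3

/-- **A choice for all large `m`.** -/
theorem choice_all {A : Set ℕ} {n b t s : ℕ} (T : Pool.Agent.Helper84.TN.Tree (Fin n ⊕ Fin n))
    (hT : T.Proper) (huniv : T.set = Finset.univ) (S : Finset (Fin n ⊕ Fin n → Fin b))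
    (hs : 1 ≤ s) (hr : ∀ D ∈ T.blocks, SuppRank S D s)
    (hA : ∀ w ∈ S, ∃ a ∈ A, ∃ a' ∈ A, a + a' = (value fun i => w (.inl i)) ∧
      a = value fun i => w (.inr i))
    (hcov : ∀ m, t ≤ m → m < b ^ n → ∃ w ∈ S, (value fun i => w (.inl i)) = m)
    (ht : t < b ^ n) :
    ∃ m < 2 * b ^ n, Real.log (b ^ n - t : ℕ) / (3 * Real.log (2 * n * (b + 1) * s)) ≤
      (rep A m : ℝ) ^ 2 := by
  classical
  have hlt : ∀ w : Fin n → Fin b, value w < b ^ n := by
    intro w
    have h := (finFunctionFinEquiv (m := b) (n := n) w).2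
    rw [finFunctionFinEquiv_apply] at h
    exact h
  obtain ⟨m, hm, h⟩ := choice_rate (A := A) (x := b ^ n - 1) T hT huniv S hs hr (by
    intro w hw
    obtain ⟨a, ha, a', ha', h1, h2⟩ := hA w hw
    have h3 := hlt fun i => w (.inl i)
    exact ⟨a, ha, a', ha', by omega, by omega, h1, h2⟩)
  refine ⟨m, by omega, le_trans ?_ h⟩
  have hcard : b ^ n - t ≤ S.card := by
    have h1 : Finset.Ico t (b ^ n) ⊆ S.image fun w => value fun i => w (.inl i) := by
      intro m hm
      rw [Finset.mem_Ico] at hm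
      obtain ⟨w, hw, e⟩ := hcov m hm.1 hm.2
      exact Finset.mem_image.2 ⟨w, hw, e⟩
    have h2 := (Finset.card_le_card h1).trans Finset.card_image_le
    rwa [Nat.card_Ico] at h2
  have hq : 2 ≤ 2 * n * (b + 1) := by
    have h3 : S.Nonempty := Finset.card_pos.1 (by omega)
    obtain ⟨w₀, -⟩ := h3
    have h4 := two_le_size (F := ℚ) (f := fun _ => 0) (T := T) (w := w₀)
    rw [Fintype.card_sum, Fintype.card_fin, Fintype.card_fin] at h4
    rwa [two_mul]
  have hpos : 0 ≤ 3 * Real.log (2 * n * (b + 1) * s) := by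
    have h5 : 1 ≤ 2 * n * (b + 1) * s := Nat.one_le_iff_ne_zero.2
      (Nat.mul_pos (by omega) hs).ne'
    have h6 : (1 : ℝ) ≤ 2 * n * (b + 1) * s := by exact_mod_cast h5
    have := Real.log_nonneg h6
    positivity
  refine div_le_div_of_nonneg_right ?_ hpos
  refine Real.log_le_log ?_ ?_
  · have : 0 < b ^ n - t := by omega
    exact_mod_cast this
  · exact_mod_cast hcard

end Pool.Agent.Helper12.LR
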