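import Pool.Agent.Helper12.LR.Div

/-!
Sets of small upper density defined by missing prime factors.
-/

set_option autoImplicit false

namespace Pool.Agent.Helper12.LR

/-- the upper density of `S` is at most `ε` (eventual form) -/
def Up (S : Set ℕ) (ε : ℝ) : Prop :=
  ∃ N₀ : ℕ, ∀ N ≥ N₀, ((S ∩ Set.Iio N).ncard : ℝ) ≤ ε * N

lemma fin_inter (S : Set ℕ) (N : ℕ) : (S ∩ Set.Iio N).Finite :=
  (Set.finite_Iio N).subset Set.inter_subset_right

lemma Up.mono {S T : Set ℕ} {ε δ : ℝ} (h : Up T ε) (hST : S ⊆ T) (hεδ : ε ≤ δ) : Up S δ := by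
  obtain ⟨N₀, hN₀⟩ := h
  refine ⟨N₀, fun N hN => ?_⟩
  have h1 : (S ∩ Set.Iio N).ncard ≤ (T ∩ Set.Iio N).ncard :=
    Set.ncard_le_ncard (Set.inter_subset_inter_left _ hST) (fin_inter T N)
  have h2 : ((S ∩ Set.Iio N).ncard : ℝ) ≤ ((T ∩ Set.Iio N).ncard : ℝ) := by exact_mod_cast h1
  refine h2.trans ((hN₀ N hN).trans ?_)
  exact mul_le_mul_of_nonneg_right hεδ (Nat.cast_nonneg N)

lemma Up.union {S T : Set ℕ} {ε δ : ℝ} (hS : Up S ε) (hT : Up T δ) : Up (S ∪ T) (ε + δ) := by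
  obtain ⟨N₁, hN₁⟩ := hS
  obtain ⟨N₂, hN₂⟩ := hT
  refine ⟨max N₁ N₂, fun N hN => ?_⟩
  have h1 := hN₁ N (le_trans (le_max_left _ _) hN)
  have h2 := hN₂ N (le_trans (le_max_right _ _) hN)
  have h3 : ((S ∪ T) ∩ Set.Iio N).ncard ≤ (S ∩ Set.Iio N).ncard + (T ∩ Set.Iio N).ncard := by
    rw [Set.union_inter_distrib_right]
    exact Set.ncard_union_le _ _
  have h4 : (((S ∪ T) ∩ Set.Iio N).ncard : ℝ) ≤
      ((S ∩ Set.Iio N).ncard : ℝ) + ((T ∩ Set.Iio N).ncard : ℝ) := by exact_mod_cast h3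
  linarith

lemma up_biUnion {ι : Type*} (P : Finset ι) (S : ι → Set ℕ)
    (h : ∀ i ∈ P, ∀ ε : ℝ, 0 < ε → Up (S i) ε) :
    ∀ ε : ℝ, 0 < ε → Up (⋃ i ∈ P, S i) ε := by
  classical
  induction P using Finset.induction_on with
  | empty =>
    intro ε hε
    refine ⟨0, fun N _ => ?_⟩
    simp only [Finset.notMem_empty, Set.iUnion_of_empty, Set.iUnion_empty, Set.empty_inter,
      Set.ncard_empty, Nat.cast_zero]
    positivity
  | insert i P hi ih =>
    intro ε hε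
    rw [Finset.set_biUnion_insert]
    have h1 := h i (Finset.mem_insert_self i P) (ε / 2) (by linarith)
    have h2 := ih (fun j hj => h j (Finset.mem_insert_of_mem hj)) (ε / 2) (by linarith)
    exact (h1.union h2).mono (le_refl _) (by linarith)

lemma up_rough (P : Finset ℕ) (hP : ∀ p ∈ P, p.Prime) (ε : ℝ)
    (h : ∏ p ∈ P, (1 - (p : ℝ)⁻¹) < ε) : Up {q | ∀ p ∈ P, ¬ p ∣ q} ε := by
  classical
  set M := ∏ p ∈ P, p with hM
  have hM0 : M ≠ 0 := Finset.prod_ne_zero_iff.mpr fun p hp => (hP p hp).ne_zero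
  have hM0' : (0 : ℝ) < M := by positivity
  have htot : (M.totient : ℝ) = M * ∏ p ∈ P, (1 - (p : ℝ)⁻¹) := by
    have h1 := Nat.totient_eq_mul_prod_factors M
    rw [hM, Nat.primeFactors_prod hP] at h1
    rw [← hM] at h1
    have h2 := congrArg (fun x : ℚ => (x : ℝ)) h1
    push_cast at h2
    exact h2
  set θ := ∏ p ∈ P, (1 - (p : ℝ)⁻¹) with hθ
  obtain ⟨N₀, hN₀⟩ := exists_nat_gt ((M.totient : ℝ) / (ε - θ))
  refine ⟨N₀, fun N hN => ?_⟩
  have hsub : ({q | ∀ p ∈ P, ¬ p ∣ q} ∩ Set.Iio N) ⊆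
      ((Finset.Ico 0 (0 + N)).filter (fun x => M.Coprime x) : Finset ℕ) := by
    rintro x ⟨hx1, hx2⟩
    rw [Finset.mem_coe, Finset.mem_filter, Finset.mem_Ico]
    refine ⟨⟨Nat.zero_le _, by simpa using hx2⟩, ?_⟩
    rw [hM]
    refine Nat.Coprime.prod_left fun p hp => ?_
    rw [(hP p hp).coprime_iff_not_dvd]
    exact hx1 p hp
  have h1 : ({q | ∀ p ∈ P, ¬ p ∣ q} ∩ Set.Iio N).ncard ≤
      ((Finset.Ico 0 (0 + N)).filter (fun x => M.Coprime x)).card := by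
    rw [← Set.ncard_coe_finset]
    exact Set.ncard_le_ncard hsub (Finset.finite_toSet _)
  have h2 := Nat.Ico_filter_coprime_le (a := M) 0 N hM0
  have h3 : (({q | ∀ p ∈ P, ¬ p ∣ q} ∩ Set.Iio N).ncard : ℝ) ≤ (M.totient : ℝ) * ((N : ℝ) / M + 1) := by
    have h4 : (({q | ∀ p ∈ P, ¬ p ∣ q} ∩ Set.Iio N).ncard : ℝ) ≤
      ((M.totient * (N / M + 1) : ℕ) : ℝ) := by exact_mod_cast h1.trans h2
    refine h4.trans ?_
    push_cast
    have h5 : ((N / M : ℕ) : ℝ) ≤ (N : ℝ) / M := Nat.cast_div_le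
    gcongr
  refine h3.trans ?_
  have h4 : (M.totient : ℝ) * ((N : ℝ) / M + 1) = θ * N + M.totient := by
    rw [htot]; field_simp
  rw [h4]
  have hpos : 0 < ε - θ := by linarith
  have h5 : (M.totient : ℝ) / (ε - θ) < N := lt_of_lt_of_le hN₀ (by exact_mod_cast hN)
  rw [div_lt_iff₀ hpos] at h5
  nlinarith

lemma block {m : ℕ} [NeZero m] {a : ZMod m} (ha : IsUnit a) (t : ℕ) (ε : ℝ) (hε : 0 < ε) :
    ∃ P : Finset ℕ, (∀ p ∈ P, p.Prime ∧ t < p ∧ (p : ZMod m) = a) ∧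
      ∏ p ∈ P, (1 - (p : ℝ)⁻¹) < ε := by
  classical
  have h1 := not_summable_prime ha
  set g : ℕ → ℝ := fun n : ℕ ↦ if n.Prime ∧ (n : ZMod m) = a then (1 : ℝ) / n else 0 with hg
  have hg0 : ∀ n, 0 ≤ g n := by
    intro n
    rw [hg]
    dsimp only
    split_ifs
    · positivity
    · exact le_refl _
  have h2 : ¬ Summable (fun n => g (n + (t + 1))) := by
    rw [summable_nat_add_iff]
    exact h1
  rw [not_summable_iff_tendsto_nat_atTop_of_nonneg (fun n => hg0 _)] at h2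
  obtain ⟨K, hK⟩ := (h2.eventually_gt_atTop (Real.log (1 / ε))).exists
  set P : Finset ℕ := (Finset.Ico (t + 1) (t + 1 + K)).filter
    (fun n : ℕ => n.Prime ∧ (n : ZMod m) = a) with hPdef
  have hPmem : ∀ p ∈ P, p.Prime ∧ t < p ∧ (p : ZMod m) = a := by
    intro p hp
    rw [hPdef, Finset.mem_filter, Finset.mem_Ico] at hp
    exact ⟨hp.2.1, by omega, hp.2.2⟩
  refine ⟨P, hPmem, ?_⟩
  have h3 : ∑ p ∈ P, (1 : ℝ) / p = ∑ i ∈ Finset.range K, g (i + (t + 1)) := by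
    rw [hPdef, Finset.sum_filter, Finset.sum_Ico_eq_sum_range]
    rw [show t + 1 + K - (t + 1) = K by omega]
    refine Finset.sum_congr rfl fun i _ => ?_
    rw [hg, add_comm (t + 1) i]
  have h4 : ∏ p ∈ P, (1 - (p : ℝ)⁻¹) ≤ Real.exp (-∑ p ∈ P, (1 : ℝ) / p) := by
    rw [← Finset.sum_neg_distrib, Real.exp_sum]
    refine Finset.prod_le_prod (fun p hp => ?_) (fun p hp => ?_)
    · have h5 : (1 : ℝ) ≤ p := by exact_mod_cast (hPmem p hp).1.one_lt.le
      have := inv_le_one_of_one_le₀ h5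
      linarith
    · have := Real.add_one_le_exp (-(1 / (p : ℝ)))
      rw [one_div] at this ⊢
      linarith
  refine h4.trans_lt ?_
  rw [h3]
  calc Real.exp (-∑ i ∈ Finset.range K, g (i + (t + 1))) < Real.exp (-(Real.log (1 / ε))) := by
        rw [Real.exp_lt_exp]; linarith
    _ = ε := by
        rw [Real.exp_neg, Real.exp_log (by positivity), one_div, inv_inv]

lemma up_few {m : ℕ} [NeZero m] {a : ZMod m} (ha : IsUnit a) (k : ℕ) :
    ∀ (t : ℕ) (ε : ℝ), 0 < ε →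
    Up {q | ¬ ∃ T : Finset ℕ, T.card = k + 1 ∧
      ∀ l ∈ T, l.Prime ∧ t < l ∧ (l : ZMod m) = a ∧ l ∣ q} ε := by
  classical
  induction k with
  | zero =>
    intro t ε hε
    obtain ⟨P, hP, hprod⟩ := block ha t ε hε
    refine (up_rough P (fun p hp => (hP p hp).1) ε hprod).mono ?_ (le_refl _)
    intro q hq p hp hpq
    refine hq ⟨{p}, by simp, ?_⟩
    intro l hl
    rw [Finset.mem_singleton] at hl
    subst hl
    exact ⟨(hP l hp).1, (hP l hp).2.1, (hP l hp).2.2, hpq⟩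
  | succ k ih =>
    intro t ε hε
    obtain ⟨P, hP, hprod⟩ := block ha t (ε / 2) (by linarith)
    have h1 := up_rough P (fun p hp => (hP p hp).1) _ hprod
    have h2 := ih (max t (P.sup id)) (ε / 2) (by linarith)
    refine (h1.union h2).mono ?_ (by linarith)
    intro q hq
    by_contra hcon
    rw [Set.mem_union, not_or] at hcon
    obtain ⟨hc1, hc2⟩ := hcon
    rw [Set.mem_ofPred_eq] at hc1 hc2
    push Not at hc1 hc2
    obtain ⟨p, hp, hpq⟩ := hc1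
    obtain ⟨T, hT, hT2⟩ := hc2
    have hpT : p ∉ T := by
      intro hmem
      have h3 := (hT2 p hmem).2.1
      have h4 : id p ≤ P.sup id := Finset.le_sup hp
      simp only [id] at h4
      have : P.sup id ≤ max t (P.sup id) := le_max_right _ _
      omega
    refine hq ⟨insert p T, by rw [Finset.card_insert_of_notMem hpT, hT], ?_⟩
    intro l hl
    rw [Finset.mem_insert] at hl
    rcases hl with rfl | hl
    · exact ⟨(hP l hp).1, (hP l hp).2.1, (hP l hp).2.2, hpq⟩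
    · obtain ⟨h3, h4, h5, h6⟩ := hT2 l hl
      exact ⟨h3, lt_of_le_of_lt (le_max_left _ _) h4, h5, h6⟩

/-- For almost all `q` there is a prime `p ∣ q` such that `q` has `k + 1` prime factors
`≡ -1 mod 8 p`. -/
theorem up_main (k : ℕ) (ε : ℝ) (hε : 0 < ε) :
    Up {q | ¬ ∃ p : ℕ, p.Prime ∧ p ∣ q ∧ ∃ T : Finset ℕ, T.card = k + 1 ∧
      ∀ l ∈ T, l.Prime ∧ (l : ZMod (8 * p)) = -1 ∧ l ∣ q} ε := by
  classical
  obtain ⟨P, hP, hprod⟩ := block (m := 1) (a := 1) isUnit_one 0 (ε / 2) (by linarith)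
  have h1 := up_rough P (fun p hp => (hP p hp).1) _ hprod
  have h2 := up_biUnion P (fun p => {q | ¬ ∃ T : Finset ℕ, T.card = k + 1 ∧
      ∀ l ∈ T, l.Prime ∧ (l : ZMod (8 * p)) = -1 ∧ l ∣ q}) (fun p hp δ hδ => by
    have : NeZero (8 * p) := ⟨by have := (hP p hp).1.pos; omega⟩
    refine (up_few (m := 8 * p) (a := -1) isUnit_one.neg k 0 δ hδ).mono ?_ (le_refl _)
    intro q hq
    rw [Set.mem_ofPred_eq] at hq ⊢
    intro ⟨T, hT, hT2⟩
    exact hq ⟨T, hT, fun l hl => ⟨(hT2 l hl).1, (hT2 l hl).2.2.1, (hT2 l hl).2.2.2⟩⟩)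
    (ε / 2) (by linarith)
  refine (h1.union h2).mono ?_ (by linarith)
  intro q hq
  by_contra hcon
  rw [Set.mem_union, not_or] at hcon
  obtain ⟨hc1, hc2⟩ := hcon
  rw [Set.mem_ofPred_eq] at hc1
  push Not at hc1
  obtain ⟨p, hp, hpq⟩ := hc1
  apply hc2
  rw [Set.mem_iUnion₂]
  refine ⟨p, hp, ?_⟩
  rw [Set.mem_ofPred_eq]
  intro ⟨T, hT, hT2⟩
  exact hq ⟨p, (hP p hp).1, hpq, T, hT, hT2⟩

end Pool.Agent.Helper12.LR
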