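import Mathlib

/-!
The sum of the reciprocals of the primes in a reduced residue class diverges.
-/

set_option autoImplicit false

namespace Pool.Agent.Helper12.LR

open ArithmeticFunction ArithmeticFunction.vonMangoldt Filter Topology

/-- elementary telescoping bound -/
lemma tele (L : ℝ) (J : ℕ) :
    ∑ j ∈ Finset.range J, ((1 / 2 : ℝ) ^ (j + 1)) * (L * Real.exp (-((1 / 2 : ℝ) ^ j * L))) ≤
      Real.exp (-((1 / 2 : ℝ) ^ J * L)) := by
  induction J with
  | zero =>
    simp only [Finset.range_zero, Finset.sum_empty]
    exact (Real.exp_pos _).le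
  | succ J ih =>
    rw [Finset.sum_range_succ]
    set y := (1 / 2 : ℝ) ^ (J + 1) * L with hy
    have h2 : (1 / 2 : ℝ) ^ J * L = y + y := by rw [hy, pow_succ]; ring
    rw [h2] at ih ⊢
    have h1 : y + 1 ≤ Real.exp y := Real.add_one_le_exp y
    have h3 : Real.exp (-y) = Real.exp (-(y + y)) * Real.exp y := by
      rw [← Real.exp_add]; congr 1; ring
    have h4 : (1 / 2 : ℝ) ^ (J + 1) * (L * Real.exp (-(y + y))) = y * Real.exp (-(y + y)) := by
      rw [hy]; ring
    rw [h4, h3]
    have h5 : 0 < Real.exp (-(y + y)) := Real.exp_pos _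
    nlinarith

variable {q : ℕ} [NeZero q] {a : ZMod q}

omit [NeZero q] in
lemma rc_one : residueClass a 1 = 0 := by
  have h1 := residueClass_nonneg a 1
  have h2 := residueClass_le a 1
  rw [ArithmeticFunction.vonMangoldt_apply_one] at h2
  exact le_antisymm h2 h1

lemma not_summable_log (ha : IsUnit a) :
    ¬ Summable fun n : ℕ ↦ residueClass a n / (n * Real.log n) := by
  intro H
  obtain ⟨C', hC'⟩ := LSeries_residueClass_lower_bound ha
  set S := ∑' n : ℕ, residueClass a n / (n * Real.log n) with hS
  have hq : 0 < (q.totient : ℝ)⁻¹ := inv_pos.mpr (mod_cast q.totient.pos_of_neZero)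
  have hsum : ∀ x : ℝ, 1 < x → Summable fun n : ℕ ↦ residueClass a n / (n : ℝ) ^ x := fun x hx =>
    LSeries.summable_real_of_abscissaOfAbsConv_lt <|
        (abscissaOfAbsConv_residueClass_le_one a).trans_lt <| mod_cast hx
  have key : ∀ J : ℕ, (J : ℝ) * ((q.totient : ℝ)⁻¹ / 2) - |C'| ≤ S := by
    intro J
    have h1 : ∑ j ∈ Finset.range J, ((1 / 2 : ℝ) ^ (j + 1)) *
        ∑' n : ℕ, residueClass a n / (n : ℝ) ^ (1 + (1 / 2 : ℝ) ^ j) ≤ S := by
      simp_rw [← tsum_mul_left]
      rw [← Summable.tsum_finsetSum]
      · rw [hS]
        refine Summable.tsum_le_tsum (fun n => ?_) ?_ H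
        · rcases Nat.lt_or_ge n 2 with hn | hn
          · interval_cases n
            · simp
            · simp only [rc_one]; simp
          · have hn0 : (0 : ℝ) < n := by positivity
            have hlog : 0 < Real.log n := Real.log_pos (by exact_mod_cast hn)
            have h2 := tele (Real.log n) J
            have h3 : Real.exp (-((1 / 2 : ℝ) ^ J * Real.log n)) ≤ 1 := by
              rw [Real.exp_le_one_iff]
              have : 0 ≤ (1 / 2 : ℝ) ^ J * Real.log n := by positivity
              linarith
            have h4 : ∀ j ∈ Finset.range J, ((1 / 2 : ℝ) ^ (j + 1)) *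
                (residueClass a n / (n : ℝ) ^ (1 + (1 / 2 : ℝ) ^ j)) =
                (residueClass a n / (n * Real.log n)) * (((1 / 2 : ℝ) ^ (j + 1)) *
                  (Real.log n * Real.exp (-((1 / 2 : ℝ) ^ j * Real.log n)))) := by
              intro j _
              rw [Real.rpow_add hn0, Real.rpow_one, Real.exp_neg,
                show (1 / 2 : ℝ) ^ j * Real.log n = Real.log n * (1 / 2 : ℝ) ^ j by ring,
                ← Real.rpow_def_of_pos hn0]
              have : (n : ℝ) ^ ((1 / 2 : ℝ) ^ j) ≠ 0 := (Real.rpow_pos_of_pos hn0 _).ne'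
              field_simp
            rw [Finset.sum_congr rfl h4, ← Finset.mul_sum]
            have h5 : 0 ≤ residueClass a n / (n * Real.log n) :=
              div_nonneg (residueClass_nonneg a n) (by positivity)
            calc _ ≤ residueClass a n / (n * Real.log n) * 1 :=
                  mul_le_mul_of_nonneg_left (h2.trans h3) h5
              _ = _ := mul_one _
        · refine summable_sum fun j _ => ?_
          refine (hsum _ ?_).mul_left _
          have : (0 : ℝ) < (1 / 2 : ℝ) ^ j := by positivity
          linarith
      · intro j _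
        refine (hsum _ ?_).mul_left _
        have : (0 : ℝ) < (1 / 2 : ℝ) ^ j := by positivity
        linarith
    refine le_trans ?_ h1
    have h2 : ∀ j ∈ Finset.range J, (q.totient : ℝ)⁻¹ / 2 - (1 / 2 : ℝ) ^ (j + 1) * |C'| ≤
        ((1 / 2 : ℝ) ^ (j + 1)) *
        ∑' n : ℕ, residueClass a n / (n : ℝ) ^ (1 + (1 / 2 : ℝ) ^ j) := by
      intro j _
      have hp : (0 : ℝ) < (1 / 2 : ℝ) ^ j := by positivity
      have hle : (1 / 2 : ℝ) ^ j ≤ 1 := pow_le_one₀ (by norm_num) (by norm_num)
      have h3 := hC' (x := 1 + (1 / 2 : ℝ) ^ j) ⟨by linarith, by linarith⟩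
      have h4 : (0 : ℝ) < (1 / 2 : ℝ) ^ (j + 1) := by positivity
      have h5 := mul_le_mul_of_nonneg_left h3 h4.le
      refine le_trans ?_ h5
      have h6 : (1 / 2 : ℝ) ^ (j + 1) * ((q.totient : ℝ)⁻¹ / (1 + (1 / 2 : ℝ) ^ j - 1) - C') =
          (q.totient : ℝ)⁻¹ / 2 - (1 / 2 : ℝ) ^ (j + 1) * C' := by
        rw [pow_succ]
        field_simp
        ring
      rw [h6]
      have := le_abs_self C'
      nlinarith
    refine le_trans ?_ (Finset.sum_le_sum h2)
    rw [Finset.sum_sub_distrib, Finset.sum_const, Finset.card_range, nsmul_eq_mul,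
      ← Finset.sum_mul]
    have h3 : ∑ i ∈ Finset.range J, (1 / 2 : ℝ) ^ (i + 1) ≤ 1 := by
      have h4 : ∀ J : ℕ, ∑ i ∈ Finset.range J, (1 / 2 : ℝ) ^ (i + 1) = 1 - (1 / 2 : ℝ) ^ J := by
        intro J
        induction J with
        | zero => simp
        | succ J ih => rw [Finset.sum_range_succ, ih, pow_succ]; ring
      rw [h4]
      have : (0 : ℝ) < (1 / 2 : ℝ) ^ J := by positivity
      linarith
    have h4 := mul_le_mul_of_nonneg_right h3 (abs_nonneg C')
    linarith
  obtain ⟨J, hJ⟩ := exists_nat_gt ((S + |C'|) / ((q.totient : ℝ)⁻¹ / 2))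
  rw [div_lt_iff₀ (by positivity)] at hJ
  have := key J
  linarith

/-- the sum of the reciprocals of the primes `= a mod q` diverges -/
lemma not_summable_prime (ha : IsUnit a) :
    ¬ Summable fun n : ℕ ↦ if n.Prime ∧ (n : ZMod q) = a then (1 : ℝ) / n else 0 := by
  intro H
  apply not_summable_log ha
  have h1 := (summable_residueClass_non_primes_div a).mul_left (1 / Real.log 2)
  refine Summable.of_nonneg_of_le (fun n => ?_) (fun n => ?_) (h1.add H)
  · rcases Nat.lt_or_ge n 2 with hn | hn
    · interval_cases n
      · simp
      · simp only [rc_one]; simp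
    · have hlog : 0 < Real.log n := Real.log_pos (by exact_mod_cast hn)
      exact div_nonneg (residueClass_nonneg a n) (by positivity)
  · rcases Nat.lt_or_ge n 2 with hn | hn
    · interval_cases n
      · simp
      · simp only [rc_one]
        simp only [ite_self, zero_div, mul_zero, zero_add]
        split_ifs <;> simp
    · have hn0 : (0 : ℝ) < n := by positivity
      have hlog2 : 0 < Real.log 2 := Real.log_pos (by norm_num)
      have hlog : Real.log 2 ≤ Real.log n :=
        Real.log_le_log (by norm_num) (by exact_mod_cast hn)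
      have hr := residueClass_nonneg a n
      by_cases hp : n.Prime
      · simp only [hp, if_true, true_and, zero_div, mul_zero, zero_add]
        by_cases hna : (n : ZMod q) = a
        · rw [if_pos hna]
          have : residueClass a n = Real.log n := by
            rw [residueClass, Set.indicator_of_mem (by simpa using hna)]
            exact vonMangoldt_apply_prime hp
          rw [this]
          apply le_of_eq
          have : Real.log n ≠ 0 := by linarith
          field_simp
        · rw [if_neg hna, residueClass, Set.indicator_of_notMem (by simpa using hna)]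
          simp
      · simp only [hp, if_false, false_and, add_zero]
        have hlogn : 0 < Real.log n := by linarith
        rw [div_le_iff₀ (by positivity)]
        have : 1 / Real.log 2 * (residueClass a n / n) * (n * Real.log n) =
            residueClass a n * (Real.log n / Real.log 2) := by
          field_simp
        rw [this]
        have h3 : 1 ≤ Real.log n / Real.log 2 := (one_le_div hlog2).mpr hlog
        nlinarith

end Pool.Agent.Helper12.LR
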